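import Pool.Agent.Lib.MP_a24e3f_co.CE.Spec

set_option autoImplicit false

namespace Pool.Agent.Lib.MPa24e3f.CE

namespace ALGM

theorem quad (a b c : ℝ) (S : Set ℕ) (hS : S.Infinite)
    (h : ∀ N ∈ S, a * (N : ℝ) ^ 2 + b * N + c = 0) : a = 0 ∧ b = 0 ∧ c = 0 := by
  have hP : Polynomial.C a * Polynomial.X ^ 2 + Polynomial.C b * Polynomial.X
      + Polynomial.C c = 0 := by
    apply Polynomial.eq_zero_of_infinite_isRoot
    refine (Set.Infinite.image (Nat.cast_injective (R := ℝ)).injOn hS).mono ?_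
    rintro x ⟨N, hN, rfl⟩
    show Polynomial.IsRoot _ _
    simp only [Polynomial.IsRoot.def, Polynomial.eval_add, Polynomial.eval_mul,
      Polynomial.eval_C, Polynomial.eval_pow, Polynomial.eval_X]
    exact h N hN
  have h0 := congrArg (fun p => Polynomial.eval 0 p) hP
  have h1 := congrArg (fun p => Polynomial.eval 1 p) hP
  have h2 := congrArg (fun p => Polynomial.eval (-1) p) hP
  simp at h0 h1 h2
  refine ⟨?_, ?_, ?_⟩ <;> linarith

end ALGM

theorem specALG : SpecALG := by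
  intro α β y e f hα h
  have key := ALGM.quad (y ^ 2 * (1 - β ^ 2) - f ^ 2) (2 * y ^ 2 * α * β - 2 * e * f)
    (-(y ^ 2 * α ^ 2) - e ^ 2) _ h (by
      rintro N ⟨hN1, hN2⟩
      have h1 : py α β N ^ 2 = (N : ℝ) ^ 2 - px α β N ^ 2 := by
        unfold py
        exact Real.sq_sqrt (by linarith)
      have h2 : y ^ 2 * py α β N ^ 2 = (e + f * N) ^ 2 := by rw [← hN2]; ring
      rw [h1] at h2
      unfold px at h2
      linear_combination h2)
  obtain ⟨k1, k2, k3⟩ := key
  have hya : y ^ 2 * α ^ 2 = 0 := by nlinarith [sq_nonneg (y * α), sq_nonneg e]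
  have he : e ^ 2 = 0 := by nlinarith [sq_nonneg (y * α), sq_nonneg e]
  have hy : y = 0 := by
    rcases mul_eq_zero.1 hya with h1 | h1
    · exact pow_eq_zero_iff (two_ne_zero) |>.1 h1
    · exact absurd (pow_eq_zero_iff (two_ne_zero) |>.1 h1) hα
  have he' : e = 0 := pow_eq_zero_iff (two_ne_zero) |>.1 he
  subst hy
  refine ⟨rfl, he', ?_⟩
  have hf : f ^ 2 = 0 := by linarith
  exact pow_eq_zero_iff (two_ne_zero) |>.1 hf

end Pool.Agent.Lib.MPa24e3f.CE
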