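import Pool.Agent.Lib.MP_a24e3f_co.CE.Spec

/-!
# MP_a24e3f_co, module BAD: irrational distances for almost all `N` (helper64)
-/

set_option autoImplicit false

namespace Pool.Agent.Lib.MPa24e3f.CE

namespace BADM

lemma py_sq (α β : ℝ) (N : ℕ) (h : px α β N ^ 2 ≤ (N : ℝ) ^ 2) :
    py α β N ^ 2 = (N : ℝ) ^ 2 - px α β N ^ 2 := by
  unfold py
  exact Real.sq_sqrt (by linarith)

lemma qd_sq (α β x y : ℝ) (N : ℕ) (h : px α β N ^ 2 ≤ (N : ℝ) ^ 2) :
    qd α β x y N ^ 2 = (N : ℝ) ^ 2 - 2 * x * px α β N - 2 * y * py α β N + x ^ 2 + y ^ 2 := by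
  have h1 := py_sq α β N h
  have h2 : qd α β x y N ^ 2 = (px α β N - x) ^ 2 + (py α β N - y) ^ 2 := by
    unfold qd
    exact Real.sq_sqrt (by positivity)
  rw [h2]
  linear_combination h1

lemma eqn (α β x y : ℝ) (N : ℕ) (h : px α β N ^ 2 ≤ (N : ℝ) ^ 2) :
    (qd α β x y N) ^ 4 + (2 * (2 * x * α - x ^ 2 - y ^ 2) + (-4 * x * β) * N + (-2) * N ^ 2) *
      (qd α β x y N) ^ 2 +
      (((2 * x * α - x ^ 2 - y ^ 2) ^ 2 + 4 * y ^ 2 * α ^ 2) +
        (-4 * x * β * (2 * x * α - x ^ 2 - y ^ 2) - 8 * y ^ 2 * α * β) * N +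
        (4 * x ^ 2 * β ^ 2 - 2 * (2 * x * α - x ^ 2 - y ^ 2) - 4 * y ^ 2 * (1 - β ^ 2)) * N ^ 2 +
        (4 * x * β) * N ^ 3 + 1 * N ^ 4) = 0 := by
  have h1 := py_sq α β N h
  have h2 := qd_sq α β x y N h
  set q := qd α β x y N with hq
  set p := py α β N with hp
  unfold px at h1 h2
  have h3 : q ^ 2 + (-(N : ℝ) ^ 2 - 2 * x * β * N + (2 * x * α - x ^ 2 - y ^ 2)) = -2 * y * p := by
    linear_combination h2
  have h4 : (q ^ 2 + (-(N : ℝ) ^ 2 - 2 * x * β * N + (2 * x * α - x ^ 2 - y ^ 2))) ^ 2 =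
      4 * y ^ 2 * ((N : ℝ) ^ 2 - (α - β * N) ^ 2) := by
    rw [h3, ← h1]
    ring
  linear_combination h4

end BADM

theorem specBAD (hINT : SpecINT) (hALG : SpecALG) (hLIM : SpecLIM) : SpecBAD := by
  intro l δ x y hδ hδl h0 hl0
  have hl : 0 < l := lt_trans hδ hδl
  set α : ℝ := (l ^ 2 - δ ^ 2) / (2 * l) with hα
  set β : ℝ := δ / l with hβ
  have hβ0 : 0 < β := div_pos hδ hl
  have hβ1 : β < 1 := (div_lt_one hl).2 hδl
  have hd : 0 < l ^ 2 - δ ^ 2 := by nlinarith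
  have hα0 : 0 < α := div_pos hd (by positivity)
  by_contra hinf
  have hI : {N : ℕ | ∃ q : ℚ, qd α β x y N = (q : ℝ)}.Infinite := hinf
  obtain ⟨hev, c0, hc0⟩ := hLIM α β x y hβ0 hβ1
  obtain ⟨M, hM, hMint⟩ := hINT (2 * (2 * x * α - x ^ 2 - y ^ 2)) (-4 * x * β) (-2)
    ((2 * x * α - x ^ 2 - y ^ 2) ^ 2 + 4 * y ^ 2 * α ^ 2)
    (-4 * x * β * (2 * x * α - x ^ 2 - y ^ 2) - 8 * y ^ 2 * α * β)
    (4 * x ^ 2 * β ^ 2 - 2 * (2 * x * α - x ^ 2 - y ^ 2) - 4 * y ^ 2 * (1 - β ^ 2))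
    (4 * x * β) 1
  have hMr : (0 : ℝ) < M := by exact_mod_cast hM
  have hint : ∀ N : ℕ, px α β N ^ 2 < (N : ℝ) ^ 2 → (∃ q : ℚ, qd α β x y N = (q : ℝ)) →
      ∃ k : ℤ, (M : ℝ) * (qd α β x y N - N) = k := by
    rintro N hN ⟨q, hq⟩
    have h1 := BADM.eqn α β x y N hN.le
    rw [hq] at h1
    obtain ⟨k, hk⟩ := hMint N q h1
    refine ⟨k - M * N, ?_⟩
    have hk' : (M : ℝ) * (q : ℝ) = (k : ℝ) := by exact_mod_cast hk
    rw [hq]
    push_cast
    linear_combination hk'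
  have hlim : ∀ᶠ N : ℕ in Filter.atTop, |(qd α β x y N - N) - c0| < 1 / (2 * M) := by
    have := Metric.tendsto_nhds.1 hc0 (1 / (2 * M)) (by positivity)
    filter_upwards [this] with N hN
    rwa [Real.dist_eq] at hN
  obtain ⟨N0, hN0⟩ := Filter.eventually_atTop.1 (hev.and hlim)
  have hJ : ({N : ℕ | ∃ q : ℚ, qd α β x y N = (q : ℝ)} \ {N : ℕ | N < N0}).Infinite :=
    hI.diff (Set.finite_lt_nat N0)
  obtain ⟨N1, hN1, hN1'⟩ := hJ.nonempty
  have hN1g : N0 ≤ N1 := by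
    simp only [Set.mem_setOf_eq, not_lt] at hN1'
    exact hN1'
  have hconst : ∀ N : ℕ, N0 ≤ N → (∃ q : ℚ, qd α β x y N = (q : ℝ)) →
      qd α β x y N - N = qd α β x y N1 - N1 := by
    intro N hN hq
    obtain ⟨k, hk⟩ := hint N (hN0 N hN).1 hq
    obtain ⟨k1, hk1⟩ := hint N1 (hN0 N1 hN1g).1 hN1
    have a1 := abs_lt.1 (hN0 N hN).2
    have a2 := abs_lt.1 (hN0 N1 hN1g).2
    have e : (M : ℝ) * (1 / (2 * M)) = 1 / 2 := by
      field_simp
    have b1 : (k : ℝ) - k1 < 1 := by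
      rw [← hk, ← hk1]
      have : (qd α β x y N - N) - (qd α β x y N1 - N1) < 2 * (1 / (2 * M)) := by linarith
      have := mul_lt_mul_of_pos_left this hMr
      nlinarith
    have b2 : (k1 : ℝ) - k < 1 := by
      rw [← hk, ← hk1]
      have : (qd α β x y N1 - N1) - (qd α β x y N - N) < 2 * (1 / (2 * M)) := by linarith
      have := mul_lt_mul_of_pos_left this hMr
      nlinarith
    have b3 : k - k1 < 1 := by exact_mod_cast b1
    have b4 : k1 - k < 1 := by exact_mod_cast b2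
    have b5 : k = k1 := by omega
    have b6 : (M : ℝ) * (qd α β x y N - N) = M * (qd α β x y N1 - N1) := by
      rw [hk, hk1, b5]
    exact mul_left_cancel₀ hMr.ne' b6
  set c : ℝ := qd α β x y N1 - N1 with hc
  have hinf2 : {N : ℕ | px α β N ^ 2 ≤ (N : ℝ) ^ 2 ∧
      (2 * y) * py α β N = (x ^ 2 + y ^ 2 - 2 * x * α - c ^ 2) + (2 * x * β - 2 * c) * N}.Infinite := by
    apply hJ.mono
    rintro N ⟨hNq, hNn⟩
    have hNg : N0 ≤ N := by
      simp only [Set.mem_setOf_eq, not_lt] at hNn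
      exact hNn
    have hle := (hN0 N hNg).1.le
    refine ⟨hle, ?_⟩
    have h1 := BADM.qd_sq α β x y N hle
    have h2 : qd α β x y N = N + c := by
      have := hconst N hNg hNq
      linarith
    rw [h2] at h1
    unfold px at h1
    linear_combination h1
  obtain ⟨r1, r2, r3⟩ := hALG α β (2 * y) _ _ hα0.ne' hinf2
  have hy : y = 0 := by linarith
  have hcx : c = x * β := by linarith
  rw [hy, hcx] at r2
  have r4 : x * (x * (1 - β ^ 2) - 2 * α) = 0 := by linear_combination r2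
  rcases mul_eq_zero.1 r4 with hx | hx
  · exact h0 ⟨hx, hy⟩
  · apply hl0
    refine ⟨?_, hy⟩
    rw [hα, hβ] at hx
    have h5 : x * (l ^ 2 - δ ^ 2) = l * (l ^ 2 - δ ^ 2) := by
      field_simp at hx
      nlinarith
    exact mul_right_cancel₀ hd.ne' h5

end Pool.Agent.Lib.MPa24e3f.CE
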