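import Pool.Agent.Lib.MP_a24e3f_co.CE.Spec

/-!
# Module BLD: the recursion (adapted from `Pool/Agent/Lib/MP_a24e3f_co/Build.lean`)
-/

set_option autoImplicit false

namespace Pool.Agent.Lib.MPa24e3f.CE

open Pool.Agent.Lib.MP_a24e3f_co

namespace BLDM

section

variable {V : Type} (G : SimpleGraph V) (e : V → ℕ) (W : Set V) (g0 : V → Plane)

/-- vertices placed before stage `n` -/
def Pl (n : ℕ) : Set V := {u | u ∈ W ∨ e u < n}

/-- a correct placement of the vertices before stage `n` -/
structure Good (n : ℕ) (f : V → Plane) : Prop where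
  base : ∀ u ∈ W, f u = g0 u
  inj : ∀ u ∈ Pl e W n, ∀ v ∈ Pl e W n, f u = f v → u = v
  gp : ∀ u ∈ Pl e W n, ∀ v ∈ Pl e W n, ∀ w ∈ Pl e W n, u ≠ v → v ≠ w → u ≠ w →
    ¬ Collinear ℝ {f u, f v, f w}
  adj : ∀ u ∈ Pl e W n, ∀ v ∈ Pl e W n, u ≠ v → (G.Adj u v ↔ RatDist (f u) (f v))

theorem rd_comm (p q : Plane) : RatDist p q ↔ RatDist q p := by
  unfold RatDist
  rw [dist_comm]

theorem col_rot (p q r : Plane) : Collinear ℝ {p, q, r} ↔ Collinear ℝ {q, r, p} := by
  rw [Set.insert_comm p q {r}, Set.pair_comm p r]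

theorem Pl_finite (he : Function.Injective e) (hW : W.Finite) (n : ℕ) : (Pl e W n).Finite := by
  have h : Pl e W n = W ∪ e ⁻¹' (Set.Iio n) := by
    ext u
    simp [Pl]
  rw [h]
  exact hW.union ((Set.finite_Iio n).preimage he.injOn)

theorem step (hONE : SpecONE) (he : Function.Injective e) (hW : W.Finite)
    (hdeg : ∀ v, v ∉ W → {u | G.Adj u v ∧ (u ∈ W ∨ e u < e v)}.encard ≤ 2) {n : ℕ}
    {f : V → Plane} (hf : Good G e W g0 n f) :
    ∃ f' : V → Plane, Good G e W g0 (n + 1) f' ∧ ∀ u ∈ Pl e W n, f' u = f u := by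
  classical
  by_cases hv : ∃ v, v ∉ W ∧ e v = n
  · obtain ⟨v, hvW, hvn⟩ := hv
    have hvP : v ∉ Pl e W n := by
      rintro (h | h)
      · exact hvW h
      · omega
    set P := (Pl_finite e W he hW n).toFinset with hP
    have memP : ∀ u, u ∈ P ↔ u ∈ Pl e W n := by intro u; rw [hP, Set.Finite.mem_toFinset]
    have hcard : ((P.filter (fun u => G.Adj u v)).image f).card ≤ 2 := by
      refine Finset.card_image_le.trans ?_
      have h1 := hdeg v hvW
      have h2 : ((P.filter (fun u => G.Adj u v) : Finset V) : Set V) =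
          {u | G.Adj u v ∧ (u ∈ W ∨ e u < e v)} := by
        ext u
        rw [Finset.mem_coe, Finset.mem_filter, memP]
        simp only [Pl, Set.mem_ofPred_eq]
        rw [hvn]
        tauto
      rw [← h2, Set.encard_coe_eq_coe_finsetCard] at h1
      exact_mod_cast h1
    obtain ⟨z, hz1, hz3, hz2⟩ := hONE (P.image f) ((P.filter (fun u => G.Adj u v)).image f)
      (Finset.image_subset_image (Finset.filter_subset _ _)) hcard
    have hP1 : ∀ u, u ∈ Pl e W (n + 1) → u = v ∨ u ∈ Pl e W n := by
      intro u hu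
      rcases hu with h | h
      · exact Or.inr (Or.inl h)
      · by_cases h2 : e u = n
        · exact Or.inl (he (h2.trans hvn.symm))
        · right; right; omega
    have hfu : ∀ u ∈ Pl e W n, Function.update f v z u = f u := by
      intro u hu
      apply Function.update_of_ne
      rintro rfl
      exact hvP hu
    have hfv : Function.update f v z v = z := Function.update_self _ _ _
    have hmem : ∀ u ∈ Pl e W n, f u ∈ P.image f := fun u hu =>
      Finset.mem_image_of_mem f ((memP u).mpr hu)
    have hadj : ∀ u ∈ Pl e W n, (G.Adj u v ↔ RatDist (f u) z) := by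
      intro u hu
      rw [rd_comm, hz3 (f u) (hmem u hu), Finset.mem_image]
      constructor
      · intro h
        exact ⟨u, Finset.mem_filter.mpr ⟨(memP u).mpr hu, h⟩, rfl⟩
      · rintro ⟨u', hu', h⟩
        rw [Finset.mem_filter, memP] at hu'
        have := hf.inj u' hu'.1 u hu h
        rw [← this]
        exact hu'.2
    refine ⟨Function.update f v z, ?_, hfu⟩
    constructor
    · intro u hu
      rw [hfu u (Or.inl hu)]
      exact hf.base u hu
    · intro u hu w hw h
      rcases hP1 u hu with rfl | hu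
      · rcases hP1 w hw with rfl | hw
        · rfl
        · rw [hfv, hfu w hw] at h
          exact absurd (h ▸ hmem w hw) hz1
      · rcases hP1 w hw with rfl | hw
        · rw [hfv, hfu u hu] at h
          exact absurd (h ▸ hmem u hu) hz1
        · rw [hfu u hu, hfu w hw] at h
          exact hf.inj u hu w hw h
    · intro a ha b hb c hc hab hbc hac
      have hne : ∀ x ∈ Pl e W n, ∀ y ∈ Pl e W n, x ≠ y → ¬ Collinear ℝ {f x, f y, z} := by
        intro x hx y hy hxy
        exact hz2 _ (hmem x hx) _ (hmem y hy) (fun h => hxy (hf.inj x hx y hy h))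
      rcases hP1 a ha with rfl | ha
      · rcases hP1 b hb with rfl | hb
        · exact absurd rfl hab
        · rcases hP1 c hc with rfl | hc
          · exact absurd rfl hac
          · rw [hfv, hfu b hb, hfu c hc, col_rot]
            exact hne b hb c hc hbc
      · rcases hP1 b hb with rfl | hb
        · rcases hP1 c hc with rfl | hc
          · exact absurd rfl hbc
          · rw [hfv, hfu a ha, hfu c hc, ← col_rot]
            exact hne c hc a ha hac.symm
        · rcases hP1 c hc with rfl | hc
          · rw [hfv, hfu a ha, hfu b hb]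
            exact hne a ha b hb hab
          · rw [hfu a ha, hfu b hb, hfu c hc]
            exact hf.gp a ha b hb c hc hab hbc hac
    · intro a ha b hb hab
      rcases hP1 a ha with rfl | ha
      · rcases hP1 b hb with rfl | hb
        · exact absurd rfl hab
        · rw [hfv, hfu b hb, rd_comm, G.adj_comm]
          exact hadj b hb
      · rcases hP1 b hb with rfl | hb
        · rw [hfv, hfu a ha]
          exact hadj a ha
        · rw [hfu a ha, hfu b hb]
          exact hf.adj a ha b hb hab
  · push Not at hv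
    have hP1 : ∀ u, u ∈ Pl e W (n + 1) → u ∈ Pl e W n := by
      intro u hu
      by_cases hW' : u ∈ W
      · exact Or.inl hW'
      · rcases hu with h | h
        · exact absurd h hW'
        · have := hv u hW'
          right; omega
    refine ⟨f, ⟨hf.base, ?_, ?_, ?_⟩, fun _ _ => rfl⟩
    · exact fun u hu v hv' => hf.inj u (hP1 u hu) v (hP1 v hv')
    · exact fun u hu v hv' w hw => hf.gp u (hP1 u hu) v (hP1 v hv') w (hP1 w hw)
    · exact fun u hu v hv' => hf.adj u (hP1 u hu) v (hP1 v hv')

theorem build (hONE : SpecONE) (he : Function.Injective e) (hW : W.Finite)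
    (hdeg : ∀ v, v ∉ W → {u | G.Adj u v ∧ (u ∈ W ∨ e u < e v)}.encard ≤ 2)
    (h0 : Good G e W g0 0 g0) :
    ∃ f : V → Plane, (∀ u ∈ W, f u = g0 u) ∧ IsRationalRep G f := by
  classical
  let F : ∀ n : ℕ, {f : V → Plane // Good G e W g0 n f} := fun n =>
    Nat.rec ⟨g0, h0⟩ (fun n f => ⟨Classical.choose (step G e W g0 hONE he hW hdeg f.2),
      (Classical.choose_spec (step G e W g0 hONE he hW hdeg f.2)).1⟩) n
  have hF : ∀ n, ∀ u ∈ Pl e W n, (F (n + 1)).1 u = (F n).1 u := fun n =>
    (Classical.choose_spec (step G e W g0 hONE he hW hdeg (F n).2)).2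
  have hmono : ∀ n m, n ≤ m → ∀ u ∈ Pl e W n, (F m).1 u = (F n).1 u := by
    intro n m hnm
    induction m, hnm using Nat.le_induction with
    | base => intro u _; rfl
    | succ m hm ih =>
      intro u hu
      rw [hF m u ?_, ih u hu]
      rcases hu with h | h
      · exact Or.inl h
      · right; omega
  let f : V → Plane := fun u => (F (e u + 1)).1 u
  have hmem : ∀ u n, e u < n → u ∈ Pl e W n := fun u n h => Or.inr h
  have hf : ∀ u n, e u < n → (F n).1 u = f u := by
    intro u n h
    exact hmono (e u + 1) n h u (hmem u _ (Nat.lt_succ_self _))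
  refine ⟨f, ?_, ?_, ?_, ?_⟩
  · intro u hu
    exact (F (e u + 1)).2.base u hu
  · intro u v h
    have hu : e u < max (e u) (e v) + 1 := by omega
    have hv : e v < max (e u) (e v) + 1 := by omega
    apply (F (max (e u) (e v) + 1)).2.inj u (hmem _ _ hu) v (hmem _ _ hv)
    rw [hf u _ hu, hf v _ hv]
    exact h
  · intro u v w huv hvw huw
    have hu : e u < max (e u) (max (e v) (e w)) + 1 := by omega
    have hv : e v < max (e u) (max (e v) (e w)) + 1 := by omega
    have hw : e w < max (e u) (max (e v) (e w)) + 1 := by omega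
    have := (F (max (e u) (max (e v) (e w)) + 1)).2.gp u (hmem _ _ hu) v (hmem _ _ hv) w
      (hmem _ _ hw) huv hvw huw
    rwa [hf u _ hu, hf v _ hv, hf w _ hw] at this
  · intro u v huv
    have hu : e u < max (e u) (e v) + 1 := by omega
    have hv : e v < max (e u) (e v) + 1 := by omega
    have := (F (max (e u) (e v) + 1)).2.adj u (hmem _ _ hu) v (hmem _ _ hv) huv
    rwa [hf u _ hu, hf v _ hv] at this

end

end BLDM

open BLDM in
/-- **BLD** -/
theorem specBLD (hONE : SpecONE) : SpecBLD := by
  classical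
  intro V G e W f0 he hW hf0 hdeg
  obtain ⟨g0, hg0⟩ : ∃ g0 : V → Plane, ∀ w : W, g0 w = f0 w := by
    refine ⟨fun v => if h : v ∈ W then f0 ⟨v, h⟩ else 0, fun w => ?_⟩
    simp
  have hPl : ∀ u, u ∈ Pl e W 0 → u ∈ W := by
    rintro u (h | h)
    · exact h
    · omega
  have hg : ∀ u (hu : u ∈ W), g0 u = f0 ⟨u, hu⟩ := fun u hu => hg0 ⟨u, hu⟩
  have h0 : Good G e W g0 0 g0 := by
    refine ⟨fun _ _ => rfl, ?_, ?_, ?_⟩
    · intro u hu v hv h
      rw [hg u (hPl u hu), hg v (hPl v hv)] at h
      exact congrArg Subtype.val (hf0.injective h)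
    · intro u hu v hv w hw huv hvw huw
      rw [hg u (hPl u hu), hg v (hPl v hv), hg w (hPl w hw)]
      exact hf0.no_three_collinear _ _ _ (fun h => huv (congrArg Subtype.val h))
        (fun h => hvw (congrArg Subtype.val h)) (fun h => huw (congrArg Subtype.val h))
    · intro u hu v hv huv
      rw [hg u (hPl u hu), hg v (hPl v hv)]
      exact hf0.adj_iff ⟨u, hPl u hu⟩ ⟨v, hPl v hv⟩ (fun h => huv (congrArg Subtype.val h))
  obtain ⟨f, hf1, hf2⟩ := build G e W g0 hONE he hW hdeg h0
  exact ⟨f, fun w => (hf1 w w.2).trans (hg0 w), hf2⟩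

end Pool.Agent.Lib.MPa24e3f.CE
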