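import Pool.Agent.Lib.MP_a24e3f_co.CE.Spec

namespace Pool.Agent.Lib.MPa24e3f.CE

namespace INTM

open Polynomial

lemma exists_lam : ∃ lam : ℝ →ₗ[ℚ] ℚ, ∀ r : ℚ, lam (r : ℝ) = r := by
  obtain ⟨lam, hlam⟩ := LinearMap.exists_leftInverse_of_injective (Algebra.linearMap ℚ ℝ)
    (LinearMap.ker_eq_bot.2 (by
      intro x y hxy
      have : (x : ℝ) = (y : ℝ) := by simpa using hxy
      exact_mod_cast this))
  refine ⟨lam, fun r => ?_⟩
  have := congrArg (fun f => f r) hlam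
  simpa using this

lemma mul_den (a : ℚ) (M : ℕ) (h : a.den ∣ M) : ∃ u : ℤ, (M : ℚ) * a = u := by
  obtain ⟨k, rfl⟩ := h
  refine ⟨a.num * k, ?_⟩
  have h1 : (a.den : ℚ) * a = a.num := Rat.den_mul_eq_num a
  push_cast
  calc (a.den : ℚ) * k * a = ((a.den : ℚ) * a) * k := by ring
    _ = a.num * k := by rw [h1]

lemma int_of_root (y : ℚ) (c d : ℤ) (h : y ^ 4 + c * y ^ 2 + d = 0) : ∃ k : ℤ, y = k := by
  have hi : IsIntegral ℤ y := by
    refine ⟨X ^ 4 + C c * X ^ 2 + C d, ?_, ?_⟩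
    · monicity!
    · simp only [eval₂_add, eval₂_mul, eval₂_pow, eval₂_X, eval₂_C]
      simpa using h
  obtain ⟨k, hk⟩ := IsIntegrallyClosed.isIntegral_iff.1 hi
  exact ⟨k, by simpa using hk.symm⟩

end INTM

open INTM in
theorem specINT : SpecINT := by
  intro A0 A1 A2 B0 B1 B2 B3 B4
  obtain ⟨lam, hlam⟩ := exists_lam
  have hm : ∀ (r : ℚ) (x : ℝ), lam ((r : ℝ) * x) = r * lam x := by
    intro r x
    have : (r : ℝ) * x = r • x := by rw [Rat.smul_def]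
    rw [this, map_smul, smul_eq_mul]
  set a0 := lam A0 with ha0
  set a1 := lam A1 with ha1
  set a2 := lam A2 with ha2
  set b0 := lam B0 with hb0
  set b1 := lam B1 with hb1
  set b2 := lam B2 with hb2
  set b3 := lam B3 with hb3
  set b4 := lam B4 with hb4
  set M : ℕ := a0.den * a1.den * a2.den * b0.den * b1.den * b2.den * b3.den * b4.den with hM
  have hMpos : 0 < M := by
    have := a0.den_pos; have := a1.den_pos; have := a2.den_pos
    have := b0.den_pos; have := b1.den_pos; have := b2.den_pos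
    have := b3.den_pos; have := b4.den_pos
    rw [hM]; positivity
  obtain ⟨u0, hu0⟩ := mul_den a0 M ⟨a1.den * a2.den * b0.den * b1.den * b2.den * b3.den * b4.den,
    by rw [hM]; ring⟩
  obtain ⟨u1, hu1⟩ := mul_den a1 M ⟨a0.den * a2.den * b0.den * b1.den * b2.den * b3.den * b4.den,
    by rw [hM]; ring⟩
  obtain ⟨u2, hu2⟩ := mul_den a2 M ⟨a0.den * a1.den * b0.den * b1.den * b2.den * b3.den * b4.den,
    by rw [hM]; ring⟩
  obtain ⟨v0, hv0⟩ := mul_den b0 M ⟨a0.den * a1.den * a2.den * b1.den * b2.den * b3.den * b4.den,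
    by rw [hM]; ring⟩
  obtain ⟨v1, hv1⟩ := mul_den b1 M ⟨a0.den * a1.den * a2.den * b0.den * b2.den * b3.den * b4.den,
    by rw [hM]; ring⟩
  obtain ⟨v2, hv2⟩ := mul_den b2 M ⟨a0.den * a1.den * a2.den * b0.den * b1.den * b3.den * b4.den,
    by rw [hM]; ring⟩
  obtain ⟨v3, hv3⟩ := mul_den b3 M ⟨a0.den * a1.den * a2.den * b0.den * b1.den * b2.den * b4.den,
    by rw [hM]; ring⟩
  obtain ⟨v4, hv4⟩ := mul_den b4 M ⟨a0.den * a1.den * a2.den * b0.den * b1.den * b2.den * b3.den,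
    by rw [hM]; ring⟩
  clear_value M
  refine ⟨M, hMpos, fun N q hq => ?_⟩
  have hE : (q ^ 4 : ℚ) + (a0 + a1 * N + a2 * N ^ 2) * q ^ 2 +
      (b0 + b1 * N + b2 * N ^ 2 + b3 * N ^ 3 + b4 * N ^ 4) = 0 := by
    have h0 : lam (((q ^ 4 : ℚ) : ℝ) + (((q ^ 2 : ℚ) : ℝ) * A0 + ((N * q ^ 2 : ℚ) : ℝ) * A1 +
        ((N ^ 2 * q ^ 2 : ℚ) : ℝ) * A2) + (B0 + ((N : ℚ) : ℝ) * B1 + ((N ^ 2 : ℚ) : ℝ) * B2 +
        ((N ^ 3 : ℚ) : ℝ) * B3 + ((N ^ 4 : ℚ) : ℝ) * B4)) = lam 0 := by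
      congr 1
      rw [← hq]
      push_cast
      ring
    simp only [map_add, map_zero, hlam, hm] at h0
    rw [← ha0, ← ha1, ← ha2, ← hb0, ← hb1, ← hb2, ← hb3, ← hb4] at h0
    linear_combination h0
  refine int_of_root _ (M * (u0 + u1 * N + u2 * N ^ 2))
    (M ^ 3 * (v0 + v1 * N + v2 * N ^ 2 + v3 * N ^ 3 + v4 * N ^ 4)) ?_
  push_cast
  rw [← hu0, ← hu1, ← hu2, ← hv0, ← hv1, ← hv2, ← hv3, ← hv4]
  linear_combination (M : ℚ) ^ 4 * hE

end Pool.Agent.Lib.MPa24e3f.CE
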