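import Pool.Agent.Lib.MP_a24e3f_co.CE.Spec

/-!
# Module LIM: the limits
-/

namespace Pool.Agent.Lib.MPa24e3f.CE

open Pool.Agent.Lib.MP_a24e3f_co
open Filter Topology

theorem specLIM : SpecLIM := by
  intro α β x y hβ0 hβ1
  have hN : ∀ C : ℝ, Tendsto (fun N : ℕ => C / (N : ℝ)) atTop (𝓝 0) := tendsto_const_div_atTop_nhds_zero_nat
  have hpx : Tendsto (fun N : ℕ => px α β N / N) atTop (𝓝 (-β)) := by
    have h1 : Tendsto (fun N : ℕ => α / (N : ℝ) - β) atTop (𝓝 (0 - β)) := (hN α).sub_const β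
    rw [zero_sub] at h1
    refine h1.congr' ?_
    filter_upwards [eventually_ge_atTop 1] with N hN1
    have hp : (0 : ℝ) < N := by exact_mod_cast hN1
    unfold px
    field_simp
  have hlt : ∀ᶠ N : ℕ in atTop, px α β N ^ 2 < (N : ℝ) ^ 2 := by
    have h1 : Tendsto (fun N : ℕ => (px α β N / N) ^ 2) atTop (𝓝 ((-β) ^ 2)) := hpx.pow 2
    have h2 : (-β) ^ 2 < 1 := by nlinarith
    filter_upwards [h1.eventually_lt_const h2, eventually_ge_atTop 1] with N h3 hN1
    have hp : (0 : ℝ) < N := by exact_mod_cast hN1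
    rw [div_pow, div_lt_one (by positivity)] at h3
    exact h3
  refine ⟨hlt, ?_⟩
  set γ : ℝ := √(1 - β ^ 2) with hγ
  have hγ2 : γ ^ 2 = 1 - β ^ 2 := Real.sq_sqrt (by nlinarith)
  have hpy : Tendsto (fun N : ℕ => py α β N / N) atTop (𝓝 γ) := by
    have h1 : Tendsto (fun N : ℕ => √(1 - (px α β N / N) ^ 2)) atTop (𝓝 √(1 - (-β) ^ 2)) :=
      (tendsto_const_nhds.sub (hpx.pow 2)).sqrt
    rw [neg_sq] at h1
    refine h1.congr' ?_
    filter_upwards [eventually_ge_atTop 1] with N hN1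
    have hp : (0 : ℝ) < N := by exact_mod_cast hN1
    unfold py
    have e : 1 - (px α β N / N) ^ 2 = ((N : ℝ) ^ 2 - px α β N ^ 2) / (N : ℝ) ^ 2 := by field_simp
    rw [e, Real.sqrt_div' _ (by positivity), Real.sqrt_sq hp.le]
  have hqd : Tendsto (fun N : ℕ => qd α β x y N / N) atTop (𝓝 1) := by
    have h1 : Tendsto (fun N : ℕ => √((px α β N / N - x / N) ^ 2 + (py α β N / N - y / N) ^ 2)) atTop
        (𝓝 √((-β - 0) ^ 2 + (γ - 0) ^ 2)) :=
      (((hpx.sub (hN x)).pow 2).add ((hpy.sub (hN y)).pow 2)).sqrt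
    have h2 : √((-β - 0) ^ 2 + (γ - 0) ^ 2) = 1 := by
      have e : (-β - 0) ^ 2 + (γ - 0) ^ 2 = 1 := by
        rw [sub_zero, sub_zero, hγ2]
        ring
      rw [e, Real.sqrt_one]
    rw [h2] at h1
    refine h1.congr' ?_
    filter_upwards [eventually_ge_atTop 1] with N hN1
    have hp : (0 : ℝ) < N := by exact_mod_cast hN1
    unfold qd
    have e : (px α β N / N - x / N) ^ 2 + (py α β N / N - y / N) ^ 2 =
        ((px α β N - x) ^ 2 + (py α β N - y) ^ 2) / (N : ℝ) ^ 2 := by field_simp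
    rw [e, Real.sqrt_div' _ (by positivity), Real.sqrt_sq hp.le]
  have h1 : Tendsto (fun N : ℕ => (-(2 * x) * (px α β N / N) - 2 * y * (py α β N / N) + (x ^ 2 + y ^ 2) / N) /
      (qd α β x y N / N + 1)) atTop (𝓝 ((-(2 * x) * (-β) - 2 * y * γ + 0) / (1 + 1))) :=
    (((hpx.const_mul _).sub (hpy.const_mul _)).add (hN _)).div (hqd.add_const 1) (by norm_num)
  refine ⟨_, h1.congr' ?_⟩
  filter_upwards [hlt, eventually_ge_atTop 1] with N h2 hN1
  have hp : (0 : ℝ) < N := by exact_mod_cast hN1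
  have hpy2 : py α β N ^ 2 = (N : ℝ) ^ 2 - px α β N ^ 2 := Real.sq_sqrt (by linarith)
  have hq2 : qd α β x y N ^ 2 = (px α β N - x) ^ 2 + (py α β N - y) ^ 2 := Real.sq_sqrt (by positivity)
  have hq0 : 0 ≤ qd α β x y N := Real.sqrt_nonneg _
  rw [div_eq_iff (by positivity)]
  field_simp
  linear_combination -hq2 - hpy2

end Pool.Agent.Lib.MPa24e3f.CE
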