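import Pool.Agent.Lib.MP_a24e3f_co.CE.Spec

/-! # LNS -/

namespace Pool.Agent.Lib.MPa24e3f.CE

theorem specLNS (hALG : SpecALG) (hLIM : SpecLIM) : SpecLNS := by
  intro α β u v w hα hβ hβ1 huv
  by_contra hinf
  have hinf' : {N : ℕ | u * px α β N + v * py α β N = w}.Infinite := hinf
  obtain ⟨N0, hN0⟩ := Filter.eventually_atTop.1 (hLIM α β 0 0 hβ hβ1).1
  have h1 : ({N : ℕ | u * px α β N + v * py α β N = w} \ Set.Iio N0).Infinite :=
    hinf'.sdiff (Set.finite_Iio N0)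
  have h2 : {N : ℕ | px α β N ^ 2 ≤ (N : ℝ) ^ 2 ∧
      v * py α β N = (w - u * α) + (u * β) * N}.Infinite := by
    refine h1.mono ?_
    rintro N ⟨hN, hN'⟩
    have h3 : N0 ≤ N := by
      by_contra h
      exact hN' (by simpa using h)
    refine ⟨(hN0 N h3).le, ?_⟩
    have h4 : u * px α β N + v * py α β N = w := hN
    unfold px at h4
    linarith
  obtain ⟨h3, h4, h5⟩ := hALG α β v (w - u * α) (u * β) hα h2
  apply huv
  refine ⟨?_, h3⟩
  rcases mul_eq_zero.1 h5 with h | h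
  · exact h
  · exact absurd h hβ.ne'

end Pool.Agent.Lib.MPa24e3f.CE
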