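import Pool.Agent.Lib.MP_a24e3f_co.CE.Spec

/-!
# MP_a24e3f_co, CE, module ONE: one new point
-/

set_option autoImplicit false

namespace Pool.Agent.Lib.MPa24e3f.CE

open Pool.Agent.Lib.MP_a24e3f_co

namespace ONEM

theorem infinite_plane : Infinite Plane := by
  refine Infinite.of_injective (fun t : ℝ => (!₂[t, 0] : Plane)) ?_
  intro s t h
  have h1 := congrArg (fun p : Plane => p 0) h
  simpa using h1

theorem exists_pair (X T : Finset Plane) (hT : T ⊆ X) (hc : T.card ≤ 2) :
    ∃ a b : Plane, a ≠ b ∧ (∀ x ∈ T, x = a ∨ x = b) ∧ ∀ x ∈ X, (x = a ∨ x = b) → x ∈ T := by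
  classical
  have : Infinite Plane := infinite_plane
  have h3 : T.card = 0 ∨ T.card = 1 ∨ T.card = 2 := by omega
  rcases h3 with h | h | h
  · rw [Finset.card_eq_zero] at h
    obtain ⟨a, ha⟩ := Infinite.exists_notMem_finset X
    obtain ⟨b, hb⟩ := Infinite.exists_notMem_finset (insert a X)
    rw [Finset.mem_insert, not_or] at hb
    refine ⟨a, b, fun e => hb.1 e.symm, ?_, ?_⟩
    · intro x hx
      rw [h] at hx
      exact absurd hx (Finset.notMem_empty x)
    · intro x hx hx'
      rcases hx' with e | e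
      · exact absurd (e ▸ hx) ha
      · exact absurd (e ▸ hx) hb.2
  · obtain ⟨a, ha⟩ := Finset.card_eq_one.1 h
    have haT : a ∈ T := by
      rw [ha]
      exact Finset.mem_singleton_self a
    obtain ⟨b, hb⟩ := Infinite.exists_notMem_finset X
    refine ⟨a, b, ?_, ?_, ?_⟩
    · intro e
      exact hb (e ▸ hT haT)
    · intro x hx
      rw [ha] at hx
      exact Or.inl (Finset.mem_singleton.1 hx)
    · intro x hx hx'
      rcases hx' with e | e
      · rw [e]
        exact haT
      · exact absurd (e ▸ hx) hb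
  · obtain ⟨a, b, hab, hT2⟩ := Finset.card_eq_two.1 h
    refine ⟨a, b, hab, ?_, ?_⟩
    · intro x hx
      rw [hT2, Finset.mem_insert, Finset.mem_singleton] at hx
      exact hx
    · intro x _ hx'
      rw [hT2, Finset.mem_insert, Finset.mem_singleton]
      exact hx'

end ONEM

theorem specONE (hPLC : SpecPLC) : SpecONE := by
  classical
  intro X T hT hc
  obtain ⟨a, b, hab, h1, h2⟩ := ONEM.exists_pair X T hT hc
  obtain ⟨p, hpa, hpb, hp, hcol⟩ := hPLC a b (insert a (insert b X)) hab
  have hX : ∀ x ∈ X, x ∈ insert a (insert b X) := fun x hx =>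
    Finset.mem_insert_of_mem (Finset.mem_insert_of_mem hx)
  have haX : a ∈ insert a (insert b X) := Finset.mem_insert_self _ _
  have hbX : b ∈ insert a (insert b X) := Finset.mem_insert_of_mem (Finset.mem_insert_self _ _)
  refine ⟨p, ?_, ?_, fun y hy z hz hyz => hcol y (hX y hy) z (hX z hz) hyz⟩
  · intro hpX
    obtain ⟨z, hz, hzp⟩ : ∃ z ∈ insert a (insert b X), p ≠ z := by
      by_cases h : p = a
      · exact ⟨b, hbX, fun e => hab (h.symm.trans e)⟩
      · exact ⟨a, haX, h⟩
    refine hcol p (hX p hpX) z hz hzp ?_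
    have h3 : ({p, z, p} : Set Plane) = {z, p} := by
      apply Set.insert_eq_of_mem
      exact Set.mem_insert_of_mem _ rfl
    rw [h3]
    exact collinear_pair ℝ z p
  · intro x hx
    constructor
    · intro hr
      by_contra hxT
      exact hp x (hX x hx) (fun e => hxT (h2 x hx (Or.inl e))) (fun e => hxT (h2 x hx (Or.inr e))) hr
    · intro hxT
      rcases h1 x hxT with e | e
      · rw [e]
        exact hpa
      · rw [e]
        exact hpb

end Pool.Agent.Lib.MPa24e3f.CE
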