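import Pool.Agent.Lib.MP_a24e3f_co.CE.Spec

/-!
# MP_a24e3f_co, CE, module PLC: the place of the new point
-/

set_option autoImplicit false

namespace Pool.Agent.Lib.MPa24e3f.CE

open Pool.Agent.Lib.MP_a24e3f_co

namespace PLCM

theorem dist_eq' (p q : Plane) : dist p q = √((p 0 - q 0) ^ 2 + (p 1 - q 1) ^ 2) := by
  rw [EuclideanSpace.dist_eq, Fin.sum_univ_two, Real.dist_eq, Real.dist_eq, sq_abs, sq_abs]

/-- the point with the coordinates `(s, t)` in the frame with origin `a` and first axis `w` -/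
noncomputable def F (a : Plane) (w0 w1 s t : ℝ) : Plane :=
  !₂[a 0 + s * w0 - t * w1, a 1 + s * w1 + t * w0]

theorem F_zero (a : Plane) (w0 w1 s t : ℝ) : F a w0 w1 s t 0 = a 0 + s * w0 - t * w1 := rfl

theorem F_one (a : Plane) (w0 w1 s t : ℝ) : F a w0 w1 s t 1 = a 1 + s * w1 + t * w0 := rfl

theorem plane_ext {p q : Plane} (h0 : p 0 = q 0) (h1 : p 1 = q 1) : p = q := by
  ext i
  fin_cases i
  · exact h0
  · exact h1

theorem dist_F (a : Plane) {w0 w1 : ℝ} (hw : w0 ^ 2 + w1 ^ 2 = 1) (s t s' t' : ℝ) :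
    dist (F a w0 w1 s t) (F a w0 w1 s' t') = √((s - s') ^ 2 + (t - t') ^ 2) := by
  rw [dist_eq', F_zero, F_one, F_zero, F_one]
  congr 1
  linear_combination ((s - s') ^ 2 + (t - t') ^ 2) * hw

theorem exists_F (a : Plane) {w0 w1 : ℝ} (hw : w0 ^ 2 + w1 ^ 2 = 1) (x : Plane) :
    ∃ s t : ℝ, x = F a w0 w1 s t := by
  refine ⟨(x 0 - a 0) * w0 + (x 1 - a 1) * w1, -(x 0 - a 0) * w1 + (x 1 - a 1) * w0, ?_⟩
  apply plane_ext
  · rw [F_zero]
    linear_combination -(x 0 - a 0) * hw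
  · rw [F_one]
    linear_combination -(x 1 - a 1) * hw

theorem det_of_collinear {y z p : Plane} (h : Collinear ℝ {y, z, p}) :
    (z 0 - y 0) * (p 1 - y 1) - (z 1 - y 1) * (p 0 - y 0) = 0 := by
  have hy : y ∈ ({y, z, p} : Set Plane) := Set.mem_insert _ _
  obtain ⟨d, hd⟩ := (collinear_iff_of_mem hy).1 h
  obtain ⟨c1, h1⟩ := hd z (Set.mem_insert_of_mem _ (Set.mem_insert _ _))
  obtain ⟨c2, h2⟩ := hd p (Set.mem_insert_of_mem _ (Set.mem_insert_of_mem _ rfl))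
  have e : ∀ i : Fin 2, z i = c1 * d i + y i ∧ p i = c2 * d i + y i := by
    intro i
    rw [h1, h2]
    exact ⟨rfl, rfl⟩
  rw [(e 0).1, (e 1).1, (e 0).2, (e 1).2]
  ring

theorem det_F (a : Plane) {w0 w1 : ℝ} (hw : w0 ^ 2 + w1 ^ 2 = 1) {s t s' t' u v : ℝ}
    (h : Collinear ℝ {F a w0 w1 s t, F a w0 w1 s' t', F a w0 w1 u v}) :
    (t - t') * u + -(s - s') * v = (t - t') * s + -(s - s') * t := by
  have h1 := det_of_collinear h
  rw [F_zero, F_one, F_zero, F_one, F_zero, F_one] at h1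
  have h2 : ((s' - s) * (v - t) - (t' - t) * (u - s)) * (w0 ^ 2 + w1 ^ 2) = 0 := by
    linear_combination h1
  rw [hw, mul_one] at h2
  linear_combination h2

theorem ev_of_finite {P : ℕ → Prop} (h : {N | P N}.Finite) : ∀ᶠ N in Filter.atTop, ¬ P N := by
  have h1 := h.compl_mem_cofinite
  rw [Nat.cofinite_eq_atTop] at h1
  exact h1

end PLCM

open PLCM in
theorem specPLC (hBAD : SpecBAD) (hLNS : SpecLNS) (hLIM : SpecLIM) : SpecPLC := by
  intro a b X hab
  obtain ⟨l, hl⟩ : ∃ l : ℝ, l = dist a b := ⟨_, rfl⟩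
  have hl0 : 0 < l := by
    rw [hl]
    exact dist_pos.2 hab
  obtain ⟨δ, hδ0, hδl⟩ := exists_rat_btwn hl0
  have hl2 : (b 0 - a 0) ^ 2 + (b 1 - a 1) ^ 2 = l ^ 2 := by
    rw [hl, dist_eq', Real.sq_sqrt (by positivity)]
    ring
  obtain ⟨w0, hw0⟩ : ∃ w0 : ℝ, w0 = (b 0 - a 0) / l := ⟨_, rfl⟩
  obtain ⟨w1, hw1⟩ : ∃ w1 : ℝ, w1 = (b 1 - a 1) / l := ⟨_, rfl⟩
  have hlw0 : l * w0 = b 0 - a 0 := by
    rw [hw0]
    field_simp
  have hlw1 : l * w1 = b 1 - a 1 := by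
    rw [hw1]
    field_simp
  have hw : w0 ^ 2 + w1 ^ 2 = 1 := by
    rw [hw0, hw1, div_pow, div_pow, ← add_div, hl2]
    exact div_self (by positivity)
  have ha : a = F a w0 w1 0 0 := by
    apply plane_ext
    · rw [F_zero]
      ring
    · rw [F_one]
      ring
  have hb : b = F a w0 w1 l 0 := by
    apply plane_ext
    · rw [F_zero, hlw0]
      ring
    · rw [F_one, hlw1]
      ring
  obtain ⟨α, hα⟩ : ∃ α : ℝ, α = (l ^ 2 - (δ : ℝ) ^ 2) / (2 * l) := ⟨_, rfl⟩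
  obtain ⟨β, hβ⟩ : ∃ β : ℝ, β = (δ : ℝ) / l := ⟨_, rfl⟩
  have hβ0 : 0 < β := by
    rw [hβ]
    exact div_pos hδ0 hl0
  have hβ1 : β < 1 := by
    rw [hβ, div_lt_one hl0]
    exact hδl
  have hα0 : α ≠ 0 := by
    rw [hα]
    have h1 : (0 : ℝ) < l ^ 2 - (δ : ℝ) ^ 2 := by nlinarith
    exact (div_pos h1 (by positivity)).ne'
  have hE1 : ∀ᶠ N : ℕ in Filter.atTop, px α β N ^ 2 < (N : ℝ) ^ 2 := (hLIM α β 0 0 hβ0 hβ1).1
  have hE2 : ∀ᶠ N : ℕ in Filter.atTop, ∀ x ∈ X, x ≠ a → x ≠ b →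
      ¬ RatDist (F a w0 w1 (px α β N) (py α β N)) x := by
    rw [Filter.eventually_all_finset]
    intro x _
    by_cases hxa : x = a
    · exact Filter.Eventually.of_forall fun N h => absurd hxa h
    by_cases hxb : x = b
    · exact Filter.Eventually.of_forall fun N _ h => absurd hxb h
    obtain ⟨s, t, hx⟩ := exists_F a hw x
    have h1 := hBAD l δ s t hδ0 hδl
      (fun h => hxa (by rw [hx, h.1, h.2]; exact ha.symm))
      (fun h => hxb (by rw [hx, h.1, h.2]; exact hb.symm))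
    rw [← hα, ← hβ] at h1
    filter_upwards [ev_of_finite h1] with N hN _ _ hR
    apply hN
    obtain ⟨q, hq⟩ := hR
    refine ⟨q, ?_⟩
    rw [hx, dist_F a hw] at hq
    exact hq
  have hE3 : ∀ᶠ N : ℕ in Filter.atTop, ∀ y ∈ X, ∀ z ∈ X, y ≠ z →
      ¬ Collinear ℝ {y, z, F a w0 w1 (px α β N) (py α β N)} := by
    rw [Filter.eventually_all_finset]
    intro y _
    rw [Filter.eventually_all_finset]
    intro z _
    by_cases hyz : y = z
    · exact Filter.Eventually.of_forall fun N h => absurd hyz h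
    obtain ⟨s, t, hy⟩ := exists_F a hw y
    obtain ⟨s', t', hz⟩ := exists_F a hw z
    have h1 := hLNS α β (t - t') (-(s - s')) ((t - t') * s + -(s - s') * t) hα0 hβ0 hβ1
      (fun h => hyz (by
        have e1 : t = t' := sub_eq_zero.1 h.1
        have e2 : s = s' := by
          have := h.2
          linarith
        rw [hy, hz, e1, e2]))
    filter_upwards [ev_of_finite h1] with N hN _ hC
    apply hN
    rw [hy, hz] at hC
    exact det_F a hw hC
  obtain ⟨N, hN1, hN2, hN3⟩ := (hE1.and (hE2.and hE3)).exists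
  have hpy : py α β N ^ 2 = (N : ℝ) ^ 2 - px α β N ^ 2 := by
    unfold py
    exact Real.sq_sqrt (by linarith)
  refine ⟨F a w0 w1 (px α β N) (py α β N), ?_, ?_, hN2, hN3⟩
  · refine ⟨(N : ℚ), ?_⟩
    have h1 : dist (F a w0 w1 (px α β N) (py α β N)) a =
        √((px α β N - 0) ^ 2 + (py α β N - 0) ^ 2) := by
      have h2 := dist_F a hw (px α β N) (py α β N) 0 0
      rw [← ha] at h2
      exact h2
    rw [h1, sub_zero, sub_zero, hpy]
    have h3 : px α β N ^ 2 + ((N : ℝ) ^ 2 - px α β N ^ 2) = (N : ℝ) ^ 2 := by ring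
    rw [h3, Real.sqrt_sq (Nat.cast_nonneg N)]
    norm_num
  · refine ⟨(N : ℚ) + δ, ?_⟩
    have h1 : dist (F a w0 w1 (px α β N) (py α β N)) b =
        √((px α β N - l) ^ 2 + (py α β N - 0) ^ 2) := by
      have h2 := dist_F a hw (px α β N) (py α β N) l 0
      rw [← hb] at h2
      exact h2
    rw [h1, sub_zero, hpy]
    have hla : 2 * l * α = l ^ 2 - (δ : ℝ) ^ 2 := by
      rw [hα]
      field_simp
    have hlb : l * β = (δ : ℝ) := by
      rw [hβ]
      field_simp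
    have h3 : (px α β N - l) ^ 2 + ((N : ℝ) ^ 2 - px α β N ^ 2) = ((N : ℝ) + δ) ^ 2 := by
      unfold px
      linear_combination -hla + 2 * (N : ℝ) * hlb
    rw [h3, Real.sqrt_sq (add_nonneg (Nat.cast_nonneg N) hδ0.le)]
    norm_num

end Pool.Agent.Lib.MPa24e3f.CE
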