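import Pool.Agent.Lib.MP_a24e3f_co.CE.Spec
import Pool.Agent.Lib.MP_a24e3f_co.CE.INT
import Pool.Agent.Lib.MP_a24e3f_co.CE.ALG
import Pool.Agent.Lib.MP_a24e3f_co.CE.LIM
import Pool.Agent.Lib.MP_a24e3f_co.CE.BAD
import Pool.Agent.Lib.MP_a24e3f_co.CE.LNS
import Pool.Agent.Lib.MP_a24e3f_co.CE.PLC
import Pool.Agent.Lib.MP_a24e3f_co.CE.ONE
import Pool.Agent.Lib.MP_a24e3f_co.CE.BLD

namespace Pool.Agent.Lib.MPa24e3f.CE

theorem mainBLD : SpecBLD := by
  have hINT : SpecINT := specINT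
  have hALG : SpecALG := specALG
  have hLIM : SpecLIM := specLIM
  have hBAD : SpecBAD := specBAD hINT hALG hLIM
  have hLNS : SpecLNS := specLNS hALG hLIM
  have hPLC : SpecPLC := specPLC hBAD hLNS hLIM
  have hONE : SpecONE := specONE hPLC
  exact specBLD hONE

end Pool.Agent.Lib.MPa24e3f.CE
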