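import Mathlib
import Pool.Agent.Lib.MP_a24e3f_co.Defs

/-!
# CE: adding vertices with at most two earlier neighbours to ANY finite rational core
(MP_a24e3f_co, Q1)

THEOREM (CoreExtension). Let `G` be a graph with a finite or countable vertex set, enumerated by an
injective `e : V → ℕ`, `W` a finite set of vertices and `f0` ANY rational representation of `G[W]`
(arbitrary real coordinates). If every vertex outside `W` has at most two neighbours which are in `W`
or come earlier, then `f0` extends to a rational representation of `G`. In particular a non-rational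
finite graph with the least number of vertices has minimum degree at least three.

IDEA. Given two points `a, b` at distance `l` and a rational `0 < δ < l`, the point `p_N` with
`|p_N a| = N`, `|p_N b| = N + δ` (`N` a large integer) is at irrational distance from any given third
point `x`, for all but finitely many `N`: otherwise `q_N = |p_N x|` would be rational for infinitely
many `N`; it satisfies a MONIC equation of degree four whose coefficients are polynomials in `N` with
real coefficients; a `ℚ`-linear map `ℝ → ℚ` with `1 ↦ 1` turns this into a monic equation with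
rational coefficients, so the `q_N` have a common denominator; `q_N - N` converges, so
`q_N = N + c` for infinitely many `N`, and this forces `x = a` or `x = b`.

HIVE. Module XXX = file CE/XXX.lean, imports ONLY this file (`Pool.Agent.Lib.MP_a24e3f_co.CE.Spec`),
namespace `Pool.Agent.Lib.MPa24e3f.CE`, theorem `specXXX (hYYY : SpecYYY) ... : SpecXXX`, own lemmas
in the namespace `Pool.Agent.Lib.MPa24e3f.CE.XXXM`. Claim in table ce_modules, status done when on
main (git land). All facts needed are proved in the docstrings. -/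

namespace Pool.Agent.Lib.MPa24e3f.CE

open Pool.Agent.Lib.MP_a24e3f_co

/-- The distance of two points of the plane is rational. -/
def RatDist (p q : Plane) : Prop := ∃ r : ℚ, dist p q = (r : ℝ)

/-- The first coordinate of `p_N`. -/
def px (α β : ℝ) (N : ℕ) : ℝ := α - β * N

/-- The second coordinate of `p_N`. -/
noncomputable def py (α β : ℝ) (N : ℕ) : ℝ := √((N : ℝ) ^ 2 - px α β N ^ 2)

/-- The distance of `p_N` and `(x, y)`. -/
noncomputable def qd (α β x y : ℝ) (N : ℕ) : ℝ := √((px α β N - x) ^ 2 + (py α β N - y) ^ 2)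

/-- INT (100 lines). PROOF. There is a `ℚ`-linear map `lam : ℝ → ℚ` with `lam 1 = 1`
(`exists_extend` of the isomorphism of the line `ℚ · 1` with `ℚ`; e.g.
`LinearMap.exists_leftInverse_of_injective (Algebra.linearMap ℚ ℝ)`: a left inverse `lam` has
`lam (r : ℝ) = r` for all rational `r`). So `lam (r * x) = r * lam x` for rational `r`. Apply `lam`
to the equation (`N`, `q` rational): `q^4 + (a0 + a1 N + a2 N^2) q^2 + (b0 + b1 N + b2 N^2 + b3 N^3 +
b4 N^4) = 0` with the rational numbers `a_i = lam A_i`, `b_i = lam B_i`. Let `M > 0` be a common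
multiple of the denominators of all `a_i, b_i` (e.g. the product of the denominators). Then `y = M q`
satisfies `y^4 + (M^2 a) y^2 + M^4 b = 0` with integers `M^2 a`, `M^4 b` (`a, b` the two values at
`N`), so the rational number `y` is a root of a monic polynomial with integer coefficients, hence an
integer (`IsIntegrallyClosed ℤ`: `IsIntegrallyClosed.isIntegral_iff`, or
`isInteger_of_is_root_of_monic`, or directly: if `y = s/t` in lowest terms, `t | s^4`, so `t = 1`). -/
def SpecINT : Prop :=
  ∀ A0 A1 A2 B0 B1 B2 B3 B4 : ℝ, ∃ M : ℕ, 0 < M ∧ ∀ (N : ℕ) (q : ℚ),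
    (q : ℝ) ^ 4 + (A0 + A1 * N + A2 * N ^ 2) * (q : ℝ) ^ 2 +
      (B0 + B1 * N + B2 * N ^ 2 + B3 * N ^ 3 + B4 * N ^ 4) = 0 → ∃ k : ℤ, (M : ℚ) * q = k

/-- ALG (60 lines). PROOF. Squaring, `y^2 (N^2 - (α - β N)^2) = (e + f N)^2` for infinitely many `N`
(the square root of a nonnegative number; `N^2 - px^2 ≥ 0` is assumed for the `N` in question). The
two sides are polynomials in `N`, which agree for infinitely many values, so their coefficients agree
(the polynomial `C (y^2 (1 - β^2) - f^2) X^2 + C (2 y^2 α β - 2 e f) X + C (- y^2 α^2 - e^2)` has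
infinitely many roots, so it is zero: `Polynomial.eq_zero_of_infinite_isRoot`). The constant
coefficient gives `- y^2 α^2 = e^2`, so `y α = 0` and `e = 0`; `α ≠ 0`, so `y = 0`. The coefficient of
`X^2` gives `f^2 = 0`. -/
def SpecALG : Prop :=
  ∀ α β y e f : ℝ, α ≠ 0 →
    {N : ℕ | px α β N ^ 2 ≤ (N : ℝ) ^ 2 ∧ y * py α β N = e + f * N}.Infinite →
    y = 0 ∧ e = 0 ∧ f = 0

/-- LIM (110 lines). PROOF. All limits are for `N → ∞`. `px / N = α / N - β → -β`.
`py / N = √(1 - (px / N)^2) → √(1 - β^2) =: γ` (for `N ≥ 1`: `√(N^2 - px^2)/N = √((N^2 - px^2)/N^2)`).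
`qd / N = √((px/N - x/N)^2 + (py/N - y/N)^2) → √(β^2 + γ^2) = 1` (`β^2 + γ^2 = 1`). For large `N` we
have `px^2 ≤ N^2` (as `(px/N)^2 → β^2 < 1`), hence `px^2 + py^2 = N^2` and
`qd^2 - N^2 = -2 x px - 2 y py + x^2 + y^2`. So for large `N`
`qd - N = (qd^2 - N^2)/(qd + N) = ((-2 x px - 2 y py + x^2 + y^2)/N) / (qd/N + 1)`, with limit
`(2 x β - 2 y γ) / 2`. -/
def SpecLIM : Prop :=
  ∀ α β x y : ℝ, 0 < β → β < 1 →
    (∀ᶠ N : ℕ in Filter.atTop, px α β N ^ 2 < (N : ℝ) ^ 2) ∧
    ∃ c : ℝ, Filter.Tendsto (fun N : ℕ => qd α β x y N - N) Filter.atTop (nhds c)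

/-- BAD (150 lines, uses INT, ALG, LIM). Here `l = |ab| > 0`, `δ` is a real number with
`0 < δ < l`, `α = (l^2 - δ^2)/(2 l)`, `β = δ/l` (so `0 < β < 1`, `α > 0`). PROOF. Suppose the set `I`
of the `N` with `qd` rational is infinite; remove the finitely many `N` with `px^2 ≥ N^2` (LIM). For
`N ∈ I`, `q = qd`, `q ≥ 0`: `px^2 + py^2 = N^2`, so
`q^2 = N^2 - 2 x px - 2 y py + x^2 + y^2`, i.e. `q^2 - N^2 + 2 x px - x^2 - y^2 = - 2 y py`; square:
`(q^2 + L)^2 = 4 y^2 (N^2 - px^2)` with `L = - N^2 + 2 x (α - β N) - x^2 - y^2`; that is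
`q^4 + 2 L q^2 + (L^2 - 4 y^2 (N^2 - (α - β N)^2)) = 0`, an equation as in INT (expand `L` and `L^2`
in powers of `N`: `A2 = -2`, `A1 = -4 x β`, `A0 = 2 (2 x α - x^2 - y^2)`, and with
`m = 2 x α - x^2 - y^2`, `L = - N^2 - 2 x β N + m`: `B4 = 1`, `B3 = 4 x β`,
`B2 = 4 x^2 β^2 - 2 m - 4 y^2 (1 - β^2)`, `B1 = - 4 x β m - 8 y^2 α β`, `B0 = m^2 + 4 y^2 α^2`). So
`M q ∈ ℤ` for all `N ∈ I`, hence `M (q - N) ∈ ℤ`; these integers converge along `I` (LIM), so for
large `N ∈ I` they are all equal (two integers closer than `1` are equal) and `q = N + c` with one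
constant `c`, for infinitely many `N`. For these, `N^2 + 2 c N + c^2 = q^2 =
N^2 - 2 x (α - β N) - 2 y py + x^2 + y^2`, so `2 y py = e + f N` with
`e = x^2 + y^2 - 2 x α - c^2`, `f = 2 x β - 2 c`. By ALG (`α ≠ 0`): `2 y = 0`, `e = 0`, `f = 0`. So
`y = 0`, `c = x β` and `0 = x^2 - 2 x α - x^2 β^2 = x (x (1 - β^2) - 2 α)`, so `x = 0` or
`x = 2 α/(1 - β^2) = ((l^2 - δ^2)/l) / ((l^2 - δ^2)/l^2) = l`. That is `(x, y) = (0, 0)` or
`(x, y) = (l, 0)`, a contradiction. -/
def SpecBAD : Prop :=
  ∀ l δ x y : ℝ, 0 < δ → δ < l → ¬ (x = 0 ∧ y = 0) → ¬ (x = l ∧ y = 0) →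
    {N : ℕ | ∃ q : ℚ, qd ((l ^ 2 - δ ^ 2) / (2 * l)) (δ / l) x y N = (q : ℝ)}.Finite

/-- LNS (60 lines, uses ALG, LIM). PROOF. Suppose infinitely many `N` satisfy
`u px + v py = w`; remove the finitely many with `px^2 ≥ N^2` (LIM). Then
`v py = (w - u α) + (u β) N` for infinitely many `N`, so by ALG `v = 0` and `u β = 0`, `u = 0`
(`β > 0`), a contradiction to `(u, v) ≠ 0`. -/
def SpecLNS : Prop :=
  ∀ α β u v w : ℝ, α ≠ 0 → 0 < β → β < 1 → ¬ (u = 0 ∧ v = 0) →
    {N : ℕ | u * px α β N + v * py α β N = w}.Finite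

/-- PLC (160 lines, uses BAD, LNS, LIM). PROOF. Let `l = dist a b > 0`, choose a rational `δ` with
`0 < δ < l`, `α = (l^2 - δ^2)/(2 l)`, `β = δ/l`. Let `w = (b - a)/l = (w0, w1)`, a unit vector, and
`w' = (-w1, w0)`; for real `s, t` let `F (s, t) = a + s w + t w'`, i.e. the point with coordinates
`a0 + s w0 - t w1`, `a1 + s w1 + t w0`. Every point `x` of the plane is `F (s, t)` for
`s = (x0 - a0) w0 + (x1 - a1) w1`, `t = - (x0 - a0) w1 + (x1 - a1) w0`, and
`dist (F (s, t)) (F (s', t')) = √((s - s')^2 + (t - t')^2)`; `a = F (0, 0)`, `b = F (l, 0)`.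
Let `p_N = F (px, py)`. For all `N` with `px^2 < N^2` (all large `N`, LIM): `dist p_N a = N` and
`dist p_N b = N + δ`, since `(px - l)^2 + py^2 = N^2 - 2 l px + l^2 = N^2 - 2 l α + 2 l β N + l^2
= (N + δ)^2`: both rational. For `x ∈ X`, `x ≠ a, b`, `x = F (s, t)`: `dist p_N x = qd α β s t N`,
rational for only finitely many `N` by BAD. For two different points `y = F (s, t)`,
`z = F (s', t')` of `X`: if `y, z, p_N` are collinear then
`(t - t') (px - s) - (s - s') (py - t) = 0`, which by LNS (`(u, v) = (t - t', -(s - s')) ≠ 0`) holds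
for only finitely many `N`. (Collinearity to the equation: e.g. `collinear_iff_of_mem` with base
point `y`: `z = y + c1 d`, `p = y + c2 d` for a vector `d`, so the determinant vanishes; work in the
coordinates `0, 1` of the plane, the determinant in the coordinates `(s, t)` is the same, the change
of coordinates being a rotation.) So all large `N` outside finitely many exceptions do. -/
def SpecPLC : Prop :=
  ∀ (a b : Plane) (X : Finset Plane), a ≠ b →
    ∃ p : Plane, RatDist p a ∧ RatDist p b ∧ (∀ x ∈ X, x ≠ a → x ≠ b → ¬ RatDist p x) ∧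
      ∀ y ∈ X, ∀ z ∈ X, y ≠ z → ¬ Collinear ℝ {y, z, p}

/-- ONE (80 lines, uses PLC). PROOF. Apply PLC with a larger set. Choose `a, b` as follows. If `T` has
two elements, these are `a, b`. If `T = {a}`, let `b` be any point outside `X` (the plane is infinite,
`Infinite Plane`, `Set.Infinite.exists_notMem_finset` / `Infinite.exists_notMem_finset`). If `T` is
empty, let `a ≠ b` be any two points outside `X`. Let `X' = X ∪ {a, b}` and `p` be as in PLC for `a`,
`b`, `X'`. For `x ∈ X`: `RatDist p x` iff `x ∈ T` (if `x ∈ T` then `x = a` or `x = b`; if `x ∉ T` then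
`x ≠ a, b`). Not collinear with two different points of `X`: PLC. `p ∉ X`: if `p ∈ X`, take
`z ∈ {a, b}` with `z ≠ p`; then `p, z ∈ X'` are different and `p, z, p` are collinear
(`collinear_pair`), a contradiction. -/
def SpecONE : Prop :=
  ∀ (X T : Finset Plane), T ⊆ X → T.card ≤ 2 →
    ∃ p : Plane, p ∉ X ∧ (∀ x ∈ X, (RatDist p x ↔ x ∈ T)) ∧
      ∀ y ∈ X, ∀ z ∈ X, y ≠ z → ¬ Collinear ℝ {y, z, p}

/-- BLD (180 lines, uses ONE). Adapt the file `Pool/Agent/Lib/MP_a24e3f_co/Build.lean` on main (the
same recursion, with another one-step lemma; copy it and change `cr .. ≠ 0` to `¬ Collinear ..`,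
`IsSquare (nm ..)` to `RatDist ..`, `≤ 3` to `≤ 2`). PROOF. Let `Pl n = {u | u ∈ W ∨ e u < n}`, a
finite set. Call `f : V → Plane` good for `n` if it agrees with `g0` on `W` and on `Pl n` is
injective, has no three collinear values and satisfies the adjacency condition. `g0` (any extension
of `f0` to `V`, e.g. by a constant) is good for `0`. Step: `f` good for `n`; if some `v ∉ W` has
`e v = n` (unique), apply ONE to `X = f(Pl n)` and `T = f({u ∈ Pl n | u adjacent to v})`
(at most two elements) and put `f' v = p`, `f' u = f u` otherwise; if there is no such `v`,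
`f' = f`. The limit `f v = f_(e v + 1) v` is as required. (Collinearity of `{f' a, f' b, f' c}` is
symmetric in the three points: use `Set.insert_comm`, `Set.pair_comm`. `RatDist` is symmetric.) -/
def SpecBLD : Prop :=
  ∀ (V : Type) (G : SimpleGraph V) (e : V → ℕ) (W : Set V) (f0 : W → Plane),
    Function.Injective e → W.Finite → IsRationalRep (G.induce W) f0 →
    (∀ v, v ∉ W → {u | G.Adj u v ∧ (u ∈ W ∨ e u < e v)}.encard ≤ 2) →
    ∃ f : V → Plane, (∀ w : W, f w = f0 w) ∧ IsRationalRep G f

end Pool.Agent.Lib.MPa24e3f.CE
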